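import Mathlib

set_option autoImplicit false

open Topology Filter Set
open scoped Pointwise

namespace Pool.Agent.Work.MP_417230_al

/-- `V`-local minimality of a topological group, in the form of the frozen statement. -/
def LocMin (G : Type) [AddCommGroup G] [t : TopologicalSpace G] (V : Set G) : Prop :=
  ∀ σ : TopologicalSpace G, @IsTopologicalAddGroup G σ _ → @T2Space G σ → t ≤ σ →
    V ∈ @nhds G σ 0 → σ = t

section LM

variable {G : Type} [AddCommGroup G] [t : TopologicalSpace G] [IsTopologicalAddGroup G]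

/-- The main consequence of local minimality: a family of sets `L i` that is a base of a group
filter, small inside `V`, with Hausdorff infimum, tends to zero. -/
theorem lm_tendsto {V : Set G} (hLM : LocMin G V) {ι : Type} [Nonempty ι] (L : ι → Set G)
    (hdir : ∀ i j, ∃ k, L k ⊆ L i ∩ L j) (h0 : ∀ i, (0 : G) ∈ L i)
    (hadd : ∀ i, ∃ j, L j + L j ⊆ L i) (hneg : ∀ i, ∃ j, -L j ⊆ L i)
    (hV : ∃ i, ∃ W ∈ 𝓝 (0 : G), W + L i ⊆ V)
    (hH : ∀ x : G, (∀ W ∈ 𝓝 (0 : G), ∀ i, x ∈ W + L i) → x = 0) :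
    ∀ U ∈ 𝓝 (0 : G), ∃ i, L i ⊆ U := by
  classical
  let sets : Set (Set G) := {S | ∃ W ∈ 𝓝 (0 : G), ∃ i, S = W + L i}
  let B : AddGroupFilterBasis G := addGroupFilterBasisOfComm sets
    (by
      obtain ⟨i⟩ := ‹Nonempty ι›
      exact ⟨univ + L i, univ, univ_mem, i, rfl⟩)
    (by
      rintro _ _ ⟨W, hW, i, rfl⟩ ⟨W', hW', j, rfl⟩
      obtain ⟨k, hk⟩ := hdir i j
      refine ⟨(W ∩ W') + L k, ⟨W ∩ W', inter_mem hW hW', k, rfl⟩, ?_⟩
      rintro _ ⟨w, hw, l, hl, rfl⟩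
      exact ⟨⟨w, hw.1, l, (hk hl).1, rfl⟩, ⟨w, hw.2, l, (hk hl).2, rfl⟩⟩)
    (by
      rintro _ ⟨W, hW, i, rfl⟩
      exact ⟨0, mem_of_mem_nhds hW, 0, h0 i, add_zero 0⟩)
    (by
      rintro _ ⟨W, hW, i, rfl⟩
      obtain ⟨W', hW', hWW⟩ := exists_open_nhds_zero_half hW
      obtain ⟨j, hj⟩ := hadd i
      refine ⟨W' + L j, ⟨W', hW'.mem_nhds hWW.1, j, rfl⟩, ?_⟩
      rintro _ ⟨_, ⟨w, hw, l, hl, rfl⟩, _, ⟨w', hw', l', hl', rfl⟩, rfl⟩
      refine ⟨w + w', hWW.2 w hw w' hw', l + l', hj ⟨l, hl, l', hl', rfl⟩, ?_⟩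
      simp only
      abel)
    (by
      rintro _ ⟨W, hW, i, rfl⟩
      obtain ⟨j, hj⟩ := hneg i
      refine ⟨-W + L j, ⟨-W, ?_, j, rfl⟩, ?_⟩
      · exact neg_mem_nhds_zero G hW
      · rintro _ ⟨w, hw, l, hl, rfl⟩
        refine ⟨-w, by simpa using hw, -l, hj (by simpa using hl), ?_⟩
        simp only
        abel)
  have hle : t ≤ B.topology := by
    rw [le_iff_nhds]
    intro x
    rw [(B.nhds_hasBasis x).ge_iff]
    rintro S ⟨W, hW, i, rfl⟩
    have : (fun y => x + y) '' W ∈ 𝓝 x := by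
      have := (Homeomorph.addLeft x).isOpenMap.image_mem_nhds hW
      simpa using this
    refine mem_of_superset this ?_
    rintro _ ⟨w, hw, rfl⟩
    exact ⟨w, ⟨w, hw, 0, h0 i, add_zero w⟩, rfl⟩
  have hT2 : @T2Space G B.topology := by
    let := B.topology
    rw [B.t2Space_iff_sInter_subset rfl]
    intro x hx
    rw [mem_singleton_iff]
    apply hH
    intro W hW i
    exact hx _ ⟨W, hW, i, rfl⟩
  have hVn : V ∈ @nhds G B.topology 0 := by
    rw [B.nhds_zero_hasBasis.mem_iff]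
    obtain ⟨i, W, hW, h⟩ := hV
    exact ⟨W + L i, ⟨W, hW, i, rfl⟩, h⟩
  have heq : B.topology = t := hLM B.topology B.isTopologicalAddGroup hT2 hle hVn
  intro U hU
  rw [← heq, B.nhds_zero_hasBasis.mem_iff] at hU
  obtain ⟨_, ⟨W, hW, i, rfl⟩, h⟩ := hU
  refine ⟨i, fun l hl => h ⟨0, ?_, l, hl, zero_add l⟩⟩
  exact mem_of_mem_nhds hW

end LM

end Pool.Agent.Work.MP_417230_al
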