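import Mathlib

set_option autoImplicit false

open Topology Filter Set MeasureTheory
open scoped InnerProductSpace ComplexConjugate

namespace Pool.Agent.Work.MP_417230_al

section Op

variable {K : Type} [AddCommGroup K] [TopologicalSpace K] [IsTopologicalAddGroup K]
  [CompactSpace K] [MeasurableSpace K] [BorelSpace K] (μ : Measure K) [IsProbabilityMeasure μ]
  [μ.IsAddLeftInvariant] [μ.IsOpenPosMeasure]
  {H : Type} [NormedAddCommGroup H] [InnerProductSpace ℂ H] [CompleteSpace H]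

/-- averaged rank one operator -/
noncomputable def Aop (F : K → H) : H →L[ℂ] H :=
  ∫ x, InnerProductSpace.rankOne ℂ (F x) (F x) ∂μ

variable {F : K → H} (hF : Continuous F)
include hF

omit [AddCommGroup K] [IsTopologicalAddGroup K] [μ.IsAddLeftInvariant] [μ.IsOpenPosMeasure]
  [CompactSpace K] [MeasurableSpace K] [BorelSpace K] [CompleteSpace H] in
theorem rank_continuous :
    Continuous (fun x => InnerProductSpace.rankOne ℂ (F x) (F x) : K → H →L[ℂ] H) :=
  ((ContinuousLinearMap.smulRightL ℂ H H).continuous.comp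
    ((innerSL ℂ).continuous.comp hF)).clm_apply hF

omit [AddCommGroup K] [IsTopologicalAddGroup K] [μ.IsAddLeftInvariant] [μ.IsOpenPosMeasure]
  [CompleteSpace H] in
theorem rank_integrable :
    Integrable (fun x => InnerProductSpace.rankOne ℂ (F x) (F x) : K → H →L[ℂ] H) μ :=
  (rank_continuous hF).integrable_of_hasCompactSupport (HasCompactSupport.of_compactSpace _)

omit [AddCommGroup K] [IsTopologicalAddGroup K] [μ.IsAddLeftInvariant] [μ.IsOpenPosMeasure]
  [CompleteSpace H] in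
theorem Aop_apply (φ : H) : Aop μ F φ = ∫ x, ⟪F x, φ⟫_ℂ • F x ∂μ := by
  rw [Aop, ContinuousLinearMap.integral_apply (rank_integrable μ hF)]
  rfl

omit [AddCommGroup K] [IsTopologicalAddGroup K] [μ.IsAddLeftInvariant] [μ.IsOpenPosMeasure] in
theorem inner_Aop (ψ φ : H) : ⟪ψ, Aop μ F φ⟫_ℂ = ∫ x, ⟪ψ, F x⟫_ℂ * ⟪F x, φ⟫_ℂ ∂μ := by
  have h1 : Integrable (fun x => ⟪F x, φ⟫_ℂ • F x) μ :=
    ((hF.inner continuous_const).smul hF).integrable_of_hasCompactSupport
      (HasCompactSupport.of_compactSpace _)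
  rw [Aop_apply μ hF, ← innerSL_apply_apply ℂ, ← ContinuousLinearMap.integral_comp_comm _ h1]
  refine integral_congr_ae (Filter.Eventually.of_forall fun x => ?_)
  simp [mul_comm]

omit [AddCommGroup K] [IsTopologicalAddGroup K] [μ.IsAddLeftInvariant] [μ.IsOpenPosMeasure] in
theorem Aop_symm : ((Aop μ F : H →L[ℂ] H) : H →ₗ[ℂ] H).IsSymmetric := by
  intro φ ψ
  change ⟪Aop μ F φ, ψ⟫_ℂ = ⟪φ, Aop μ F ψ⟫_ℂ
  rw [← inner_conj_symm, inner_Aop μ hF, inner_Aop μ hF, ← integral_conj]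
  refine integral_congr_ae (Filter.Eventually.of_forall fun x => ?_)
  simp only [map_mul, inner_conj_symm]
  ring

omit [AddCommGroup K] [IsTopologicalAddGroup K] [μ.IsAddLeftInvariant] [μ.IsOpenPosMeasure] in
theorem Aop_compact : IsCompactOperator (Aop μ F) := by
  have hconv : Convex ℝ {T : H →L[ℂ] H | IsCompactOperator T} := by
    intro S hS T hT a b _ _ _
    have h1 : IsCompactOperator (a • S : H →L[ℂ] H) := IsCompactOperator.smul hS a
    have h2 : IsCompactOperator (b • T : H →L[ℂ] H) := IsCompactOperator.smul hT b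
    exact h1.add h2
  refine hconv.integral_mem isClosed_setOfPred_isCompactOperator
    (Filter.Eventually.of_forall fun x => ?_) (rank_integrable μ hF)
  change IsCompactOperator (InnerProductSpace.rankOne ℂ (F x) (F x))
  rw [InnerProductSpace.rankOne_def']
  exact (isCompactOperator_of_locallyCompactSpace_rng
    (ContinuousLinearMap.toSpanSingleton ℂ (F x))).comp_clm (innerSL ℂ (F x))

omit [AddCommGroup K] [IsTopologicalAddGroup K] [μ.IsAddLeftInvariant] in
theorem Aop_eq_zero {ψ : H} (h : Aop μ F ψ = 0) (x : K) : ⟪F x, ψ⟫_ℂ = 0 := by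
  have h1 : ⟪ψ, Aop μ F ψ⟫_ℂ = 0 := by rw [h, inner_zero_right]
  rw [inner_Aop μ hF] at h1
  have h2 : ∀ x, ⟪ψ, F x⟫_ℂ * ⟪F x, ψ⟫_ℂ = ((‖⟪F x, ψ⟫_ℂ‖ ^ 2 : ℝ) : ℂ) := by
    intro x
    rw [← inner_conj_symm ψ (F x), ← Complex.normSq_eq_conj_mul_self, Complex.normSq_eq_norm_sq]
  simp_rw [h2] at h1
  rw [integral_complex_ofReal, Complex.ofReal_eq_zero] at h1
  have hc : Continuous (fun x => ‖⟪F x, ψ⟫_ℂ‖ ^ 2) := (hF.inner continuous_const).norm.pow 2
  rw [integral_eq_zero_iff_of_nonneg (fun x => by positivity)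
    (hc.integrable_of_hasCompactSupport (HasCompactSupport.of_compactSpace _))] at h1
  have h3 := (Continuous.ae_eq_iff_eq μ hc continuous_const).1 h1
  have h4 : ‖⟪F x, ψ⟫_ℂ‖ ^ 2 = 0 := congrFun h3 x
  simpa using h4

omit [μ.IsOpenPosMeasure] in
theorem Aop_comm {U : H →L[ℂ] H} {y : K} (hU : ∀ φ ψ, ⟪U φ, U ψ⟫_ℂ = ⟪φ, ψ⟫_ℂ)
    (hUF : ∀ x, U (F x) = F (y + x)) (φ : H) : U (Aop μ F φ) = Aop μ F (U φ) := by
  have h1 : Integrable (fun x => ⟪F x, φ⟫_ℂ • F x) μ :=
    ((hF.inner continuous_const).smul hF).integrable_of_hasCompactSupport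
      (HasCompactSupport.of_compactSpace _)
  rw [Aop_apply μ hF, Aop_apply μ hF, ← ContinuousLinearMap.integral_comp_comm _ h1,
    ← integral_add_left_eq_self (fun x => ⟪F x, U φ⟫_ℂ • F x) y]
  refine integral_congr_ae (Filter.Eventually.of_forall fun x => ?_)
  simp only [map_smul]
  rw [← hU, hUF]

end Op

end Pool.Agent.Work.MP_417230_al
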