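import Pool.Agent.Work.MP_417230_al.PWAbs

set_option autoImplicit false

open Topology Filter Set MeasureTheory
open scoped InnerProductSpace ComplexConjugate

namespace Pool.Agent.Work.MP_417230_al

section Rep

variable {K : Type} [AddCommGroup K] [TopologicalSpace K] [IsTopologicalAddGroup K]
  {H : Type} [NormedAddCommGroup H] [InnerProductSpace ℂ H] [CompleteSpace H]
  {U : K → H →L[ℂ] H}

omit [IsTopologicalAddGroup K] in
/-- A circle valued character from a complex valued one. -/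
theorem exists_char_of_complex {c : K → ℂ} (hcont : Continuous c)
    (hadd : ∀ x y, c (x + y) = c x * c y) (hn : ∀ x, ‖c x‖ = 1) :
    ∃ χ : K →+ UnitAddCircle, Continuous χ ∧ ∀ y, χ y = 0 → c y = 1 := by
  let C : K → Circle := fun x => ⟨c x, mem_sphere_zero_iff_norm.2 (hn x)⟩
  have hC : Continuous C := hcont.subtype_mk _
  let e := AddCircle.homeomorphCircle (T := (1 : ℝ)) one_ne_zero
  have he : ∀ x, AddCircle.toCircle (e.symm x) = x := by
    intro x
    rw [← AddCircle.homeomorphCircle_apply one_ne_zero]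
    exact e.apply_symm_apply x
  have hinj := AddCircle.injective_toCircle (T := (1 : ℝ)) one_ne_zero
  have h1 : ∀ x y, e.symm (C (x + y)) = e.symm (C x) + e.symm (C y) := by
    intro x y
    apply hinj
    rw [AddCircle.toCircle_add, he, he, he]
    apply Subtype.ext
    exact hadd x y
  refine ⟨AddMonoidHom.mk' (fun x => e.symm (C x)) h1, e.symm.continuous.comp hC, fun y hy => ?_⟩
  have h2 : e.symm (C y) = 0 := hy
  have h3 := he (C y)
  rw [h2, AddCircle.toCircle_zero] at h3
  exact (congrArg Subtype.val h3).symm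

variable (hU0 : ∀ φ, U 0 φ = φ) (hUadd : ∀ x y φ, U (x + y) φ = U x (U y φ))
  (hUn : ∀ x φ ψ, ⟪U x φ, U x ψ⟫_ℂ = ⟪φ, ψ⟫_ℂ) {v : H} (hv : Continuous fun x => U x v)

include hU0 hUadd hUn in
omit [TopologicalSpace K] [IsTopologicalAddGroup K] [CompleteSpace H] in
theorem inner_U (y : K) (a b : H) : ⟪U y a, b⟫_ℂ = ⟪a, U (-y) b⟫_ℂ := by
  have : b = U y (U (-y) b) := by rw [← hUadd, add_neg_cancel, hU0]
  conv_lhs => rw [this]
  rw [hUn]

include hU0 hUadd hUn hv in
omit [CompleteSpace H] in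
/-- a common eigenvector gives a continuous character -/
theorem exists_char_of_eigen {φ : H} (c : K → ℂ) (hc : ∀ y, U y φ = c y • φ) {x₁ : K}
    (hx₁ : ⟪U x₁ v, φ⟫_ℂ ≠ 0) :
    ∃ χ : K →+ UnitAddCircle, Continuous χ ∧ ∀ y, χ y = 0 → c y = 1 := by
  have hφ : φ ≠ 0 := by
    rintro rfl
    exact hx₁ (inner_zero_right _)
  have hφn : ‖φ‖ ≠ 0 := norm_ne_zero_iff.2 hφ
  refine exists_char_of_complex (c := c) ?_ ?_ ?_
  · have h1 : ∀ y, c y = ⟪U (-y + x₁) v, φ⟫_ℂ / ⟪U x₁ v, φ⟫_ℂ := by
      intro y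
      rw [hUadd, inner_U hU0 hUadd hUn, neg_neg, hc, inner_smul_right, mul_div_assoc,
        div_self hx₁, mul_one]
    have h2 : c = fun y => ⟪U (-y + x₁) v, φ⟫_ℂ / ⟪U x₁ v, φ⟫_ℂ := funext h1
    rw [h2]
    have h3 : Continuous (fun y : K => U (-y + x₁) v) :=
      hv.comp (continuous_neg.add continuous_const)
    exact (h3.inner continuous_const).div_const _
  · intro x y
    have h1 : c (x + y) • φ = (c x * c y) • φ := by
      rw [← hc, hUadd, hc y, map_smul, hc x, smul_smul, mul_comm]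
    exact smul_left_injective ℂ hφ h1
  · intro x
    have h1 : ‖U x φ‖ = ‖φ‖ := by
      have := hUn x φ φ
      rw [inner_self_eq_norm_sq_to_K, inner_self_eq_norm_sq_to_K] at this
      have h2 : ‖U x φ‖ ^ 2 = ‖φ‖ ^ 2 := by exact_mod_cast this
      exact (pow_left_inj₀ (norm_nonneg _) (norm_nonneg _) two_ne_zero).1 h2
    rw [hc, norm_smul] at h1
    exact mul_right_cancel₀ hφn (by rw [h1, one_mul])

variable [CompactSpace K] [MeasurableSpace K] [BorelSpace K] (μ : Measure K)
  [IsProbabilityMeasure μ] [μ.IsAddLeftInvariant] [μ.IsOpenPosMeasure]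

include hU0 hUadd hUn hv in
omit [μ.IsOpenPosMeasure] in
theorem eigen_trivial {x₀ : K}
    (hchar : ∀ χ : K →+ UnitAddCircle, Continuous χ → χ x₀ = 0) {l : ℂ} (hl : l ≠ 0) {φ : H}
    (hφ : Aop μ (fun x => U x v) φ = l • φ) : U x₀ φ = φ := by
  classical
  set A := Aop μ (fun x => U x v) with hA
  have hcomm : ∀ y φ, U y (A φ) = A (U y φ) := fun y φ =>
    Aop_comm μ hv (hUn y) (fun x => (hUadd y x v).symm) φ
  let E := Module.End.eigenspace (A : H →ₗ[ℂ] H) l
  have hEf : FiniteDimensional ℂ E :=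
    ContinuousLinearMap.finite_dimensional_eigenspace (Aop_compact μ hv) l hl
  have hE : ∀ φ, φ ∈ E ↔ A φ = l • φ := fun φ => Module.End.mem_eigenspace_iff
  have hmap : ∀ y, ∀ φ ∈ E, (U y : H →ₗ[ℂ] H) φ ∈ E := by
    intro y φ hφ
    rw [hE] at hφ ⊢
    change A (U y φ) = l • U y φ
    rw [← hcomm, hφ, map_smul]
  let R : K → Module.End ℂ E := fun y => (U y : H →ₗ[ℂ] H).restrict (hmap y)
  have hR : ∀ y (w : E), ((R y w : E) : H) = U y w := fun y w => rfl
  have hRR : ∀ x y, Commute (R x) (R y) := by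
    intro x y
    refine LinearMap.ext fun w => Subtype.ext ?_
    rw [Module.End.mul_apply, Module.End.mul_apply, hR, hR, hR, hR, ← hUadd, ← hUadd, add_comm]
  have hRi : ∀ y (a b : E), ⟪R y a, b⟫_ℂ = ⟪a, R (-y) b⟫_ℂ := by
    intro y a b
    exact inner_U hU0 hUadd hUn y a b
  let T : K × Bool → Module.End ℂ E := fun i =>
    if i.2 then R i.1 + R (-i.1) else Complex.I • (R i.1 - R (-i.1))
  have hTs : ∀ i, (T i).IsSymmetric := by
    rintro ⟨y, b⟩ w z
    cases b
    · simp only [T, if_false, Bool.false_eq_true, LinearMap.smul_apply, LinearMap.sub_apply]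
      rw [inner_smul_left, inner_smul_right, inner_sub_left, inner_sub_right, hRi, hRi, neg_neg,
        Complex.conj_I]
      ring
    · simp only [T, if_true, LinearMap.add_apply]
      rw [inner_add_left, inner_add_right, hRi, hRi, neg_neg, add_comm]
  have hTc : Pairwise (Function.onFun Commute T) := by
    rintro ⟨y, b⟩ ⟨z, d⟩ _
    have h1 : ∀ y z, Commute (R y + R (-y)) (R z + R (-z)) := fun y z =>
      ((hRR _ _).add_left (hRR _ _)).add_right ((hRR _ _).add_left (hRR _ _))
    have h2 : ∀ y z, Commute (R y + R (-y)) (R z - R (-z)) := fun y z =>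
      ((hRR _ _).add_left (hRR _ _)).sub_right ((hRR _ _).add_left (hRR _ _))
    have h3 : ∀ y z, Commute (R y - R (-y)) (R z - R (-z)) := fun y z =>
      ((hRR _ _).sub_left (hRR _ _)).sub_right ((hRR _ _).sub_left (hRR _ _))
    cases b <;> cases d <;> simp only [Function.onFun, T, if_true, if_false, Bool.false_eq_true]
    · exact ((h3 y z).smul_left _).smul_right _
    · exact ((h2 z y).symm).smul_left _
    · exact (h2 y z).smul_right _
    · exact h1 y z
  have htop := LinearMap.IsSymmetric.iSup_iInf_eq_top_of_commute hTs hTc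
  have hle : (⨆ χ : K × Bool → ℂ, ⨅ i, Module.End.eigenspace (T i) (χ i)) ≤
      Module.End.eigenspace (R x₀) 1 := by
    refine iSup_le fun χ w hw => ?_
    rw [Submodule.mem_iInf] at hw
    rw [Module.End.mem_eigenspace_iff, one_smul]
    have hc : ∀ y, U y (w : H) = ((χ (y, true) - Complex.I * χ (y, false)) / 2) • (w : H) := by
      intro y
      have h1 := hw (y, true)
      have h2 := hw (y, false)
      rw [Module.End.mem_eigenspace_iff] at h1 h2
      simp only [T, if_true, if_false, Bool.false_eq_true, LinearMap.add_apply,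
        LinearMap.smul_apply, LinearMap.sub_apply] at h1 h2
      have h1' : U y (w : H) + U (-y) (w : H) = χ (y, true) • (w : H) := congrArg Subtype.val h1
      have h2' : Complex.I • (U y (w : H) - U (-y) (w : H)) = χ (y, false) • (w : H) :=
        congrArg Subtype.val h2
      rw [div_eq_inv_mul, mul_smul, sub_smul, mul_smul, ← h1', ← h2', smul_smul, Complex.I_mul_I,
        neg_one_smul]
      have : U y (w : H) + U (-y) (w : H) - -(U y (w : H) - U (-y) (w : H)) =
          (2 : ℂ) • U y (w : H) := by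
        rw [two_smul]
        abel
      rw [this, smul_smul, inv_mul_cancel₀ two_ne_zero, one_smul]
    apply Subtype.ext
    rw [hR]
    by_cases hw0 : (w : H) = 0
    · rw [hw0, map_zero]
    obtain ⟨x₁, hx₁⟩ : ∃ x₁, ⟪U x₁ v, (w : H)⟫_ℂ ≠ 0 := by
      by_contra hcon
      push Not at hcon
      have h1 : A (w : H) = 0 := by
        rw [hA, Aop_apply μ hv]
        simp [hcon]
      have h2 := (hE _).1 w.2
      rw [h1] at h2
      exact (smul_ne_zero hl hw0) h2.symm
    obtain ⟨χ', hχ', hχ'c⟩ := exists_char_of_eigen hU0 hUadd hUn hv _ hc hx₁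
    have h3 := hχ'c x₀ (hchar χ' hχ')
    rw [hc x₀, h3, one_smul]
  rw [htop] at hle
  have h4 : (⟨φ, (hE φ).2 hφ⟩ : E) ∈ Module.End.eigenspace (R x₀) 1 := hle trivial
  rw [Module.End.mem_eigenspace_iff, one_smul] at h4
  exact congrArg Subtype.val h4

include hU0 hUadd hUn hv μ in
theorem rep_trivial {x₀ : K} (hchar : ∀ χ : K →+ UnitAddCircle, Continuous χ → χ x₀ = 0) :
    U x₀ v = v := by
  set A := Aop μ (fun x => U x v) with hA
  have hcomm : ∀ y φ, U y (A φ) = A (U y φ) := fun y φ =>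
    Aop_comm μ hv (hUn y) (fun x => (hUadd y x v).symm) φ
  let B : H →L[ℂ] H := A ∘L (U x₀ - ContinuousLinearMap.id ℂ H)
  have hBapp : ∀ φ, B φ = A (U x₀ φ) - A φ := fun φ => by simp [B]
  have hle : (⨆ l, Module.End.eigenspace (A : H →ₗ[ℂ] H) l) ≤ LinearMap.ker (B : H →ₗ[ℂ] H) := by
    refine iSup_le fun l φ hφ => ?_
    have hφ' : A φ = l • φ := Module.End.mem_eigenspace_iff.1 hφ
    rw [LinearMap.mem_ker]
    change B φ = 0
    rw [hBapp]
    by_cases hl : l = 0
    · rw [← hcomm, hφ', hl, zero_smul, map_zero, sub_zero]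
    · rw [eigen_trivial hU0 hUadd hUn hv μ hchar hl hφ', sub_self]
  have hbot := ContinuousLinearMap.orthogonalComplement_iSup_eigenspaces_eq_bot
    (Aop_compact μ hv) (Aop_symm μ hv)
  have hcl := Submodule.topologicalClosure_minimal _ hle B.isClosed_ker
  rw [Submodule.topologicalClosure_eq_top_iff.2 hbot, top_le_iff] at hcl
  have hB : ∀ φ, A (U x₀ φ - φ) = 0 := by
    intro φ
    have : φ ∈ LinearMap.ker (B : H →ₗ[ℂ] H) := by
      rw [hcl]
      trivial
    rw [LinearMap.mem_ker] at this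
    rw [map_sub, ← hBapp]
    exact this
  have h1 : ⟪v, U x₀ v - v⟫_ℂ = 0 := by
    have := Aop_eq_zero μ hv (hB v) 0
    rwa [hU0] at this
  have h2 : ⟪U x₀ v - v, U x₀ v - v⟫_ℂ = 0 := by
    have h3 : ⟪U x₀ v, U x₀ v⟫_ℂ = ⟪v, v⟫_ℂ := hUn _ _ _
    rw [inner_sub_right, sub_eq_zero] at h1
    have h4 : ⟪U x₀ v, v⟫_ℂ = ⟪v, v⟫_ℂ := by rw [← inner_conj_symm, h1, inner_conj_symm]
    rw [inner_sub_left, inner_sub_right, inner_sub_right, h3, h1, h4, sub_self]
  exact sub_eq_zero.1 (inner_self_eq_zero.1 h2)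

end Rep

end Pool.Agent.Work.MP_417230_al
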