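import Pool.Agent.Work.MP_417230_al.StepOne

set_option autoImplicit false

open Topology Filter Set
open scoped Pointwise

namespace Pool.Agent.Work.MP_417230_al

/-- product of the integers `i ≤ n` prime to `p` -/
def ell (p : ℕ) : ℕ → ℕ
  | 0 => 1
  | n + 1 => if p ∣ n + 1 then ell p n else ell p n * (n + 1)

theorem ell_pos (p n : ℕ) : 1 ≤ ell p n := by
  induction n with
  | zero => exact le_rfl
  | succ n ih =>
    simp only [ell]
    split_ifs
    · exact ih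
    · nlinarith

theorem ell_le (p n : ℕ) : ell p n ≤ 2 ^ (n * n) := by
  induction n with
  | zero => exact le_rfl
  | succ n ih =>
    have h1 : n + 1 ≤ 2 ^ (n + 1) := (Nat.lt_two_pow_self).le
    have h2 : ell p n * (n + 1) ≤ 2 ^ (n * n) * 2 ^ (n + 1) := Nat.mul_le_mul ih h1
    have h3 : 2 ^ (n * n) * 2 ^ (n + 1) ≤ 2 ^ ((n + 1) * (n + 1)) := by
      rw [← pow_add]
      exact Nat.pow_le_pow_right (by norm_num) (by nlinarith)
    have h4 : 2 ^ (n * n) ≤ 2 ^ ((n + 1) * (n + 1)) :=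
      Nat.pow_le_pow_right (by norm_num) (by nlinarith)
    simp only [ell]
    split_ifs
    · exact ih.trans h4
    · exact h2.trans h3

theorem ell_coprime {p : ℕ} (hp : p.Prime) (n : ℕ) : Nat.Coprime p (ell p n) := by
  induction n with
  | zero => exact Nat.coprime_one_right p
  | succ n ih =>
    simp only [ell]
    split_ifs with h
    · exact ih
    · exact Nat.Coprime.mul_right ih ((Nat.Prime.coprime_iff_not_dvd hp).2 h)

theorem dvd_ell {p u : ℕ} (hu : ¬ p ∣ u) : ∀ n, u ≤ n → u ∣ ell p n := by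
  intro n
  induction n with
  | zero =>
    intro h
    have : u = 0 := by omega
    subst this
    exact absurd (dvd_zero p) hu
  | succ n ih =>
    intro h
    simp only [ell]
    rcases Nat.lt_or_ge n u with h1 | h1
    · have : u = n + 1 := by omega
      subst this
      rw [if_neg hu]
      exact dvd_mul_left _ _
    · split_ifs
      · exact ih h1
      · exact (ih h1).mul_right _

section

variable {G : Type} [AddCommGroup G]

/-- the `p`-part of a chain -/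
def part (p : ℕ) (V : ℕ → Set G) (n : ℕ) : Set G :=
  (fun x => (ell p n : ℤ) • x) '' V ((n + 1) * (n + 1))

theorem Chain.dvd_smul {V : ℕ → Set G} (h : Chain V) {p n d : ℕ} (hd : d ∣ ell p n) {x : G}
    (hx : x ∈ V ((n + 1) * (n + 1))) : (d : ℤ) • x ∈ V n := by
  have h1 : d ≤ 2 ^ (n * n) := (Nat.le_of_dvd (ell_pos p n) hd).trans (ell_le p n)
  refine h.zsmul (r := n * n) ?_ (h.mono (by nlinarith) hx)
  rw [Nat.abs_cast]
  exact_mod_cast h1

theorem part_sub {V : ℕ → Set G} (h : Chain V) (p n : ℕ) : part p V n ⊆ V n := by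
  rintro _ ⟨x, hx, rfl⟩
  exact h.dvd_smul (dvd_refl _) hx

theorem part_chain {V : ℕ → Set G} (h : Chain V) (p : ℕ) : Chain (part p V) := by
  refine ⟨fun n => ⟨0, h.zero _, by simp⟩, ?_, ?_⟩
  · rintro n _ ⟨x, hx, rfl⟩
    exact ⟨-x, h.neg _ _ hx, by simp⟩
  · rintro n _ _ ⟨x, hx, rfl⟩ ⟨y, hy, rfl⟩
    obtain ⟨c, hc, hcl⟩ : ∃ c : ℕ, c ≤ 2 ^ (n + 1) ∧ ell p (n + 1) = ell p n * c := by
      simp only [ell]
      split_ifs
      · exact ⟨1, Nat.one_le_two_pow, by simp⟩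
      · exact ⟨n + 1, (Nat.lt_two_pow_self).le, rfl⟩
    refine ⟨(c : ℤ) • (x + y), ?_, ?_⟩
    · have h1 : x + y ∈ V ((n + 1) * (n + 1) + (n + 1)) := by
        refine h.add _ _ _ (h.mono ?_ hx) (h.mono ?_ hy) <;> nlinarith
      refine h.zsmul ?_ h1
      rw [Nat.abs_cast]
      exact_mod_cast hc
    · simp only
      rw [hcl, ← smul_add]
      push_cast
      rw [mul_smul]

end

section

variable {G : Type} [AddCommGroup G] [TopologicalSpace G] [IsTopologicalAddGroup G] [T2Space G]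


omit [IsTopologicalAddGroup G] [T2Space G] in
theorem part_H3 {V : ℕ → Set G} (h : Chain V)
    (hone : ∀ W ∈ 𝓝 (0 : G), ∃ m : ℤ, 1 ≤ m ∧ ∃ n, Cov ((fun x => m • x) '' V n) W)
    {p : ℕ} (hp : p.Prime) {W : Set G} (hW : W ∈ 𝓝 (0 : G)) :
    ∃ a n : ℕ, Cov ((fun x => ((p : ℤ) ^ a) • x) '' part p V n) W := by
  obtain ⟨m, hm, n₀, hC⟩ := hone W hW
  lift m to ℕ using (by omega)
  obtain ⟨a, u, hu, rfl⟩ := Nat.exists_eq_pow_mul_and_not_dvd (n := m) (by omega) p hp.ne_one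
  refine ⟨a, max u n₀, hC.mono ?_ Subset.rfl⟩
  rintro _ ⟨_, ⟨v, hv, rfl⟩, rfl⟩
  obtain ⟨c, hc⟩ := dvd_ell hu (max u n₀) (le_max_left _ _)
  refine ⟨(c : ℤ) • v, h.mono (le_max_right u n₀) (h.dvd_smul (Dvd.intro_left u hc.symm) hv), ?_⟩
  simp only [smul_smul]
  rw [hc]
  push_cast
  ring_nf

omit [T2Space G] in
theorem cov_of_parts {V : ℕ → Set G} (h : Chain V)
    (hparts : ∀ p : ℕ, p.Prime → ∀ U ∈ 𝓝 (0 : G), ∃ n, Cov (part p V n) U) (m : ℕ) :
    1 ≤ m → ∀ W : Set G, ∀ T ∈ 𝓝 (0 : G), (∃ n, Cov ((fun x => (m : ℤ) • x) '' V n) W) →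
      ∃ n, Cov (V n) (W + T) := by
  induction m using Nat.strong_induction_on with
  | _ m ih =>
    intro hm W T hT hC
    rcases Nat.eq_or_lt_of_le hm with h1 | h1
    · obtain ⟨n, hn⟩ := hC
      rw [← h1] at hn
      refine ⟨n, hn.mono ?_ ?_⟩
      · intro x hx
        exact ⟨x, hx, by simp⟩
      · intro w hw
        exact ⟨w, hw, 0, mem_of_mem_nhds hT, add_zero w⟩
    · have hp := Nat.minFac_prime (n := m) (by omega)
      set p := m.minFac with hpdef
      obtain ⟨m₁, hm₁⟩ := Nat.minFac_dvd m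
      rw [← hpdef] at hm₁
      have hm₁0 : 1 ≤ m₁ := by
        rcases Nat.eq_zero_or_pos m₁ with h0 | h0
        · rw [h0, mul_zero] at hm₁; omega
        · exact h0
      have hlt : m₁ < m := by
        rw [hm₁]
        have := hp.two_le
        nlinarith
      obtain ⟨T₁, hT₁, _, hT₁T⟩ := exists_half hT
      obtain ⟨T₂, hT₂, hT₂T⟩ := exists_smul_sub hT₁ (m₁ : ℤ)
      obtain ⟨n₁, hn₁⟩ := hparts p hp T₂ hT₂
      obtain ⟨n₀, hn₀⟩ := hC
      have hcop : IsCoprime (p : ℤ) (ell p n₁ : ℤ) :=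
        Nat.isCoprime_iff_coprime.2 (ell_coprime hp n₁)
      obtain ⟨α, β, hαβ⟩ := hcop
      have hk := hn₁.image (m₁ : ℤ)
      have hsum := hn₀.add hk
      have hstep : ∃ N, Cov ((fun x => (m₁ : ℤ) • x) '' V N) (W + T₁) := by
        refine ⟨max (n₀ + α.natAbs) ((n₁ + 1) * (n₁ + 1) + β.natAbs), hsum.mono ?_ ?_⟩
        · rintro _ ⟨x, hx, rfl⟩
          have e1 : α • x ∈ V n₀ := by
            refine h.zsmul (r := α.natAbs) ?_ (h.mono (le_max_left _ _) hx)
            rw [Int.abs_eq_natAbs]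
            exact_mod_cast (Nat.lt_two_pow_self).le
          have e2 : β • x ∈ V ((n₁ + 1) * (n₁ + 1)) := by
            refine h.zsmul (r := β.natAbs) ?_ (h.mono (le_max_right _ _) hx)
            rw [Int.abs_eq_natAbs]
            exact_mod_cast (Nat.lt_two_pow_self).le
          refine ⟨(m : ℤ) • (α • x), ⟨_, e1, rfl⟩, (m₁ : ℤ) • ((ell p n₁ : ℤ) • (β • x)),
            ⟨_, ⟨_, e2, rfl⟩, rfl⟩, ?_⟩
          simp only [smul_smul, ← add_smul]
          congr 1
          rw [hm₁]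
          push_cast
          linear_combination (m₁ : ℤ) * hαβ
        · refine add_subset_add_left ?_
          rintro _ ⟨x, hx, rfl⟩
          exact hT₂T x hx
      obtain ⟨n, hn⟩ := ih m₁ hlt hm₁0 (W + T₁) T₁ hT₁ hstep
      refine ⟨n, hn.mono Subset.rfl ?_⟩
      rintro _ ⟨_, ⟨w, hw, t, ht, rfl⟩, t', ht', rfl⟩
      exact ⟨w, hw, t + t', hT₁T t ht t' ht', (add_assoc w t t').symm⟩

omit [T2Space G] in
theorem cov_of_parts' {V : ℕ → Set G} (h : Chain V)
    (hone : ∀ W ∈ 𝓝 (0 : G), ∃ m : ℤ, 1 ≤ m ∧ ∃ n, Cov ((fun x => m • x) '' V n) W)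
    (hparts : ∀ p : ℕ, p.Prime → ∀ U ∈ 𝓝 (0 : G), ∃ n, Cov (part p V n) U) :
    ∀ U ∈ 𝓝 (0 : G), ∃ n, Cov (V n) U := by
  intro U hU
  obtain ⟨W, hW, _, hWU⟩ := exists_half hU
  obtain ⟨m, hm, hC⟩ := hone W hW
  lift m to ℕ using (by omega)
  obtain ⟨n, hn⟩ := cov_of_parts h hparts m (by exact_mod_cast hm) W W hW hC
  refine ⟨n, hn.mono Subset.rfl ?_⟩
  rintro _ ⟨a, ha, b, hb, rfl⟩
  exact hWU a ha b hb

end

end Pool.Agent.Work.MP_417230_al
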