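import Pool.Agent.Work.MP_417230_al.ClaimA

set_option autoImplicit false

open Topology Filter Set
open scoped Pointwise

namespace Pool.Agent.Work.MP_417230_al

variable {G : Type} [AddCommGroup G] [TopologicalSpace G] [IsTopologicalAddGroup G]

/-- level `β` is not precompact -/
def NP (p : ℕ) (Y : ℕ → Set G) (β : ℕ) : Prop :=
  ∃ U ∈ 𝓝 (0 : G), ∀ n, ¬ Cov (P p Y β n) U

/-- forbidden sets -/
def Tset (p : ℕ) (Y : ℕ → Set G) (K : AddSubgroup G) (W : ℕ → Set G) (β n : ℕ) : Set G :=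
  ((K : Set G) + W β) + P p Y (β + 1) n

theorem exists_W {Y : ℕ → Set G} (hY : Chain Y) {p : ℕ} (hp : p.Prime)
    (H3 : ∀ W ∈ 𝓝 (0 : G), ∃ a n : ℕ, Cov (P p Y a n) W) {K : AddSubgroup G}
    (hK : IsCompact (K : Set G)) :
    ∃ W : ℕ → Set G, ∀ β, W β ∈ 𝓝 (0 : G) ∧ (∀ x ∈ W β, -x ∈ W β) ∧ (NP p Y β →
      ∀ u : ℤ, ¬ (p : ℤ) ∣ u → ∀ n, ∃ n', ∀ n'', n' ≤ n'' →
        ¬ Cov ((fun x => ((p : ℤ) ^ β * u) • x) '' Y n)
          (Tset p Y K W β n'' - Tset p Y K W β n'')) := by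
  have key : ∀ β : ℕ, ∃ W' : Set G, W' ∈ 𝓝 (0 : G) ∧ (∀ x ∈ W', -x ∈ W') ∧ (NP p Y β →
      ∀ u : ℤ, ¬ (p : ℤ) ∣ u → ∀ n, ∃ n', ∀ n'', n' ≤ n'' →
        ¬ Cov ((fun x => ((p : ℤ) ^ β * u) • x) '' Y n)
          ((((K : Set G) + W') + P p Y (β + 1) n'') - (((K : Set G) + W') + P p Y (β + 1) n'')))
      := by
    intro β
    by_cases hNP : NP p Y β
    · obtain ⟨W, hW, hWc⟩ := claimA hY hp H3 hNP
      obtain ⟨W₁, hW₁, hW₁n, hW₁W⟩ := exists_half hW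
      obtain ⟨W₂, hW₂, hW₂n, hW₂W⟩ := exists_half hW₁
      refine ⟨W₂, hW₂, hW₂n, fun _ u hu n => ?_⟩
      obtain ⟨n', hn'⟩ := hWc u hu n
      refine ⟨n' + 1, fun n'' hn'' hC => ?_⟩
      obtain ⟨m, rfl⟩ : ∃ m, n'' = m + 1 := ⟨n'' - 1, by omega⟩
      refine hn' m (by omega) ?_
      have h1 : Cov ((K : Set G) + (W₁ + P p Y (β + 1) m))
          (W₁ + (W₁ + P p Y (β + 1) m)) := (cov_compact hK hW₁).add (Cov.refl _)
      have h2 := (hC.mono (U' := (K : Set G) + (W₁ + P p Y (β + 1) m)) Subset.rfl ?_).trans h1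
      · refine h2.mono Subset.rfl ?_
        rintro _ ⟨a, ha, _, ⟨b, hb, c, hc, rfl⟩, rfl⟩
        exact ⟨a + b, hW₁W a ha b hb, c, hc, add_assoc a b c⟩
      · rintro _ ⟨_, ⟨_, ⟨k, hk, w, hw, rfl⟩, _, ⟨x, hx, rfl⟩, rfl⟩, _,
          ⟨_, ⟨k', hk', w', hw', rfl⟩, _, ⟨x', hx', rfl⟩, rfl⟩, rfl⟩
        refine ⟨k - k', K.sub_mem hk hk', _, ⟨w + -w', hW₂W w hw _ (hW₂n w' hw'), _,
          ⟨x - x', hY.sub _ _ _ hx hx', rfl⟩, rfl⟩, ?_⟩
        simp only [smul_sub]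
        abel
    · exact ⟨univ, univ_mem, fun _ _ => mem_univ _, fun h => absurd h hNP⟩
  choose W' hW' using key
  exact ⟨W', hW'⟩

omit [IsTopologicalAddGroup G] in
theorem claimB {Y : ℕ → Set G} (hY : Chain Y) {p : ℕ} {K : AddSubgroup G} {W : ℕ → Set G}
    (hW : ∀ β, W β ∈ 𝓝 (0 : G) ∧ (∀ x ∈ W β, -x ∈ W β) ∧ (NP p Y β →
      ∀ u : ℤ, ¬ (p : ℤ) ∣ u → ∀ n, ∃ n', ∀ n'', n' ≤ n'' →
        ¬ Cov ((fun x => ((p : ℤ) ^ β * u) • x) '' Y n)
          (Tset p Y K W β n'' - Tset p Y K W β n'')))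
    (j s N M₀ : ℕ) {S : Set G} (hS : S.Finite) :
    ∃ y ∈ Y N, ∃ M, M₀ ≤ M ∧ ∀ β ≤ j, NP p Y β → ∀ x ∈ S, ∀ u : ℤ, ¬ (p : ℤ) ∣ u → |u| ≤ s →
      ((p : ℤ) ^ β) • (x + u • y) ∉ Tset p Y K W β M := by
  classical
  have hf : ∀ i : (ℕ × ℤ) × ℕ, ∃ n', NP p Y i.1.1 → ¬ (p : ℤ) ∣ i.1.2 → ∀ n'', n' ≤ n'' →
      ¬ Cov ((fun x => ((p : ℤ) ^ i.1.1 * i.1.2) • x) '' Y i.2)
          (Tset p Y K W i.1.1 n'' - Tset p Y K W i.1.1 n'') := by
    rintro ⟨⟨β, u⟩, n⟩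
    by_cases h1 : NP p Y β
    · by_cases h2 : (p : ℤ) ∣ u
      · exact ⟨0, fun _ h => absurd h2 h⟩
      · obtain ⟨n', hn'⟩ := (hW β).2.2 h1 u h2 n
        exact ⟨n', fun _ _ => hn'⟩
    · exact ⟨0, fun h => absurd h h1⟩
  choose f hf using hf
  let I : Finset (ℕ × ℤ) := (Finset.range (j + 1) ×ˢ Finset.Icc (-(s : ℤ)) s).filter
    (fun i => NP p Y i.1 ∧ ¬ (p : ℤ) ∣ i.2)
  let M : ℕ := max M₀ ((I ×ˢ Finset.range (N + I.card + 1)).sup f)
  obtain ⟨y, hy, hy'⟩ := exists_avoid hY (fun i : ℕ × ℤ => (p : ℤ) ^ i.1 * i.2)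
    (fun i => Tset p Y K W i.1 M) I N
    (fun i => (fun x => -((p : ℤ) ^ i.1 • x)) '' S) (fun i _ => hS.image _)
    (by
      intro i hi n hn hn'
      have hi2 := (Finset.mem_filter.1 hi).2
      refine hf (i, n) hi2.1 hi2.2 M ?_
      refine le_trans ?_ (le_max_right _ _)
      refine Finset.le_sup (f := f) (Finset.mem_product.2 ⟨hi, ?_⟩)
      rw [Finset.mem_range]
      simp only
      omega)
  refine ⟨y, hy, M, le_max_left _ _, ?_⟩
  intro β hβ hNP x hx u hu hus hmem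
  refine hy' (β, u) (Finset.mem_filter.2 ⟨Finset.mem_product.2 ⟨?_, ?_⟩, hNP, hu⟩) ?_
  · rw [Finset.mem_range]
    simp only
    omega
  · rw [Finset.mem_Icc]
    exact abs_le.1 hus
  · refine ⟨_, ⟨x, hx, rfl⟩, _, hmem, ?_⟩
    simp only [smul_add, smul_smul]
    abel

omit [IsTopologicalAddGroup G] in
theorem exists_seq {Y : ℕ → Set G} (hY : Chain Y) {p : ℕ} {K : AddSubgroup G} {W : ℕ → Set G}
    (hW : ∀ β, W β ∈ 𝓝 (0 : G) ∧ (∀ x ∈ W β, -x ∈ W β) ∧ (NP p Y β →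
      ∀ u : ℤ, ¬ (p : ℤ) ∣ u → ∀ n, ∃ n', ∀ n'', n' ≤ n'' →
        ¬ Cov ((fun x => ((p : ℤ) ^ β * u) • x) '' Y n)
          (Tset p Y K W β n'' - Tset p Y K W β n'')))
    (r : ℕ → ℕ) :
    ∃ (y : ℕ → G) (N : ℕ → ℕ), (∀ j, N j + 1 ≤ N (j + 1)) ∧ (∀ j, y j ∈ Y (N j + 1 + r j)) ∧
      ∀ j, ∀ β ≤ j, NP p Y β → ∀ x ∈ X y (fun i => 2 ^ r i) j, ∀ u : ℤ, ¬ (p : ℤ) ∣ u →
        |u| ≤ 2 ^ r j → ((p : ℤ) ^ β) • (x + u • y j) ∉ Tset p Y K W β (N (j + 1)) := by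
  classical
  let pr : ℕ → (ℕ → G × ℕ) → ℕ := fun j f => if j = 0 then 0 else (f (j - 1)).2
  obtain ⟨f, hf⟩ := exists_rec ((0 : G), (0 : ℕ))
    (fun j (f : ℕ → G × ℕ) (a : G × ℕ) => a.1 ∈ Y (pr j f + 1 + r j) ∧ pr j f + 1 ≤ a.2 ∧
      ∀ β ≤ j, NP p Y β → ∀ x ∈ X (fun i => (f i).1) (fun i => 2 ^ r i) j, ∀ u : ℤ,
        ¬ (p : ℤ) ∣ u → |u| ≤ 2 ^ r j → ((p : ℤ) ^ β) • (x + u • a.1) ∉ Tset p Y K W β a.2)
    (by
      intro j f g hfg a ha
      have h1 : pr j f = pr j g := by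
        simp only [pr]
        split_ifs with h
        · rfl
        · rw [hfg (j - 1) (by omega)]
      have h2 : X (fun i => (f i).1) (fun i => 2 ^ r i) j =
          X (fun i => (g i).1) (fun i => 2 ^ r i) j :=
        X_congr _ j (fun i hi => by rw [hfg i hi])
      rw [← h1, ← h2]
      exact ha)
    (by
      intro j f
      obtain ⟨y, hy, M, hM, h⟩ := claimB hY hW j (2 ^ r j) (pr j f + 1 + r j) (pr j f + 1)
        (X_finite (fun i => (f i).1) (fun i => 2 ^ r i) j)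
      refine ⟨(y, M), hy, hM, ?_⟩
      intro β hβ hNP x hx u hu hus
      exact h β hβ hNP x hx u hu (by exact_mod_cast hus))
  refine ⟨fun j => (f j).1, fun j => pr j f, ?_, ?_, ?_⟩
  · intro j
    have := (hf j).2.1
    simpa [pr] using this
  · intro j
    exact (hf j).1
  · intro j β hβ hNP x hx u hu hus
    have := (hf j).2.2 β hβ hNP x hx u hu hus
    simpa [pr] using this

/-- bounded formal combinations supported on `[k, ∞)` -/
def Box (R : ℕ → ℤ) (k : ℕ) : Set (ℕ →₀ ℤ) := {a | (∀ i < k, a i = 0) ∧ ∀ i, |a i| ≤ R i}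

section Conseq

variable {Y : ℕ → Set G} (hY : Chain Y) {p : ℕ} (hp : p.Prime) {K : AddSubgroup G}
  {W : ℕ → Set G} (hWn : ∀ β, W β ∈ 𝓝 (0 : G)) {r : ℕ → ℕ} {y : ℕ → G} {N : ℕ → ℕ}
  (hN : ∀ j, N j + 1 ≤ N (j + 1)) (hy : ∀ j, y j ∈ Y (N j + 1 + r j))
  (hav : ∀ j, ∀ β ≤ j, NP p Y β → ∀ x ∈ X y (fun i => 2 ^ r i) j, ∀ u : ℤ, ¬ (p : ℤ) ∣ u →
        |u| ≤ 2 ^ r j → ((p : ℤ) ^ β) • (x + u • y j) ∉ Tset p Y K W β (N (j + 1)))

include hY hN hy in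
omit [TopologicalSpace G] [IsTopologicalAddGroup G] in
theorem Ico_mem {a : ℕ → ℤ} (ha : ∀ i, |a i| ≤ 2 ^ r i) (k M : ℕ) :
    ∑ i ∈ Finset.Ico k M, a i • y i ∈ Y (N k) := by
  refine tail_mem hY hN M (M - k) k rfl ?_
  intro j _ _
  exact hY.zsmul (ha j) (hy j)

include hY hN hy in
omit [TopologicalSpace G] [IsTopologicalAddGroup G] in
theorem lin_mem {a : ℕ →₀ ℤ} {k : ℕ} (ha : a ∈ Box (fun i => 2 ^ r i) k) :
    lin y a ∈ Y (N k) := by
  obtain ⟨M, hM⟩ := exists_bound a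
  rw [lin_eq_Ico y a ha.1 hM]
  exact Ico_mem hY hN hy ha.2 k M

omit [TopologicalSpace G] [IsTopologicalAddGroup G] in
include hN in
theorem le_N (k : ℕ) : k ≤ N k := by
  induction k with
  | zero => exact Nat.zero_le _
  | succ k ih => exact (Nat.add_le_add_right ih 1).trans (hN k)

include hY hN hy in
omit [IsTopologicalAddGroup G] in
theorem cond_i (hK2 : ∀ U ∈ 𝓝 (0 : G), ∃ β, NP p Y β ∧ ∃ n, P p Y (β + 1) n ⊆ (K : Set G) + U)
    {U : Set G} (hU : U ∈ 𝓝 (0 : G)) : ∃ β, NP p Y β ∧ ∃ k, ∀ a ∈ Box (fun i => 2 ^ r i) k,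
      ((p : ℤ) ^ (β + 1)) • lin y a ∈ (K : Set G) + U := by
  obtain ⟨β, hβ, n, hn⟩ := hK2 U hU
  refine ⟨β, hβ, n, fun a ha => hn ⟨_, ?_, rfl⟩⟩
  exact hY.mono (le_N hN n) (lin_mem hY hN hy ha)

include hY hp hN hy hWn hav in
theorem cond_ii {β : ℕ} (hβ : NP p Y β) : ∃ U ∈ 𝓝 (0 : G), ∀ a ∈ Box (fun i => 2 ^ r i) β,
      lin y a ∈ (K : Set G) + U → ∀ j, (p : ℤ) ^ (β + 1) ∣ a j := by
  classical
  obtain ⟨U, hU, _, hUW⟩ := exists_smul_sub_le (hWn β) (p ^ β)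
  refine ⟨U, hU, fun a ha hmem => ?_⟩
  by_contra hcon
  push Not at hcon
  have hpz : (p : ℤ) ≠ 0 := by exact_mod_cast hp.ne_zero
  -- minimal valuation
  let Q : ℕ → Prop := fun v => ∃ j, ¬ (p : ℤ) ^ (v + 1) ∣ a j
  have hQ : ∃ v, Q v := ⟨β, hcon⟩
  set v := Nat.find hQ with hv
  have hvβ : v ≤ β := Nat.find_min' hQ hcon
  have hvQ : Q v := Nat.find_spec hQ
  have hvd : ∀ j, (p : ℤ) ^ v ∣ a j := by
    intro j
    rcases Nat.eq_zero_or_pos v with h0 | h0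
    · rw [h0]; simp
    · obtain ⟨w, hw⟩ : ∃ w, v = w + 1 := ⟨v - 1, by omega⟩
      have := Nat.find_min hQ (m := w) (by omega)
      simp only [Q] at this
      push Not at this
      rw [hw]
      exact this j
  have hpv : (p : ℤ) ^ v ≠ 0 := pow_ne_zero _ hpz
  let b : ℕ → ℤ := fun j => a j / (p : ℤ) ^ v
  have hb : ∀ j, a j = (p : ℤ) ^ v * b j := fun j => (Int.mul_ediv_cancel' (hvd j)).symm
  have hpv1 : (1 : ℤ) ≤ (p : ℤ) ^ v := by
    have : 0 < (p : ℤ) ^ v := by have := hp.pos; positivity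
    omega
  have hbR : ∀ j, |b j| ≤ 2 ^ r j := by
    intro j
    have h1 := ha.2 j
    rw [hb j, abs_mul, abs_of_pos (by omega : (0 : ℤ) < (p : ℤ) ^ v)] at h1
    have h2 := abs_nonneg (b j)
    simp only at h1
    nlinarith
  obtain ⟨M, hM⟩ := exists_bound a
  have hbM : ∀ i, M ≤ i → b i = 0 := by
    intro i hi
    simp [b, hM i hi]
  have hb0 : ∀ i < β, b i = 0 := by
    intro i hi
    simp [b, ha.1 i hi]
  have hex : ∃ j, ¬ (p : ℤ) ∣ b j := by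
    obtain ⟨j, hj⟩ := hvQ
    refine ⟨j, fun hd => hj ?_⟩
    rw [hb j, pow_succ]
    exact mul_dvd_mul_left _ hd
  obtain ⟨j₀, hj₀⟩ := hex
  have hne : ((Finset.range M).filter (fun j => ¬ (p : ℤ) ∣ b j)).Nonempty := by
    refine ⟨j₀, Finset.mem_filter.2 ⟨?_, hj₀⟩⟩
    rw [Finset.mem_range]
    by_contra hc
    exact hj₀ (by rw [hbM j₀ (by omega)]; exact dvd_zero _)
  set J := ((Finset.range M).filter (fun j => ¬ (p : ℤ) ∣ b j)).max' hne with hJ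
  have hJ1 := Finset.max'_mem _ hne
  rw [← hJ, Finset.mem_filter, Finset.mem_range] at hJ1
  have hJ2 : ∀ i, J < i → (p : ℤ) ∣ b i := by
    intro i hi
    by_contra hc
    have hiM : i < M := by
      by_contra hc'
      exact hc (by rw [hbM i (by omega)]; exact dvd_zero _)
    have := Finset.le_max' ((Finset.range M).filter (fun j => ¬ (p : ℤ) ∣ b j)) i
      (Finset.mem_filter.2 ⟨Finset.mem_range.2 hiM, hc⟩)
    omega
  have hβJ : β ≤ J := by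
    by_contra hc
    exact hJ1.2 (by rw [hb0 J (by omega)]; exact dvd_zero _)
  let c : ℕ → ℤ := fun j => if J < j then b j / p else 0
  have hc : ∀ j, J < j → b j = (p : ℤ) * c j := by
    intro j hj
    simp only [c, if_pos hj]
    exact (Int.mul_ediv_cancel' (hJ2 j hj)).symm
  have hcR : ∀ j, |c j| ≤ 2 ^ r j := by
    intro j
    by_cases hj : J < j
    · have h1 := hbR j
      rw [hc j hj, abs_mul, abs_of_pos (by exact_mod_cast hp.pos : (0 : ℤ) < p)] at h1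
      have h2 := abs_nonneg (c j)
      have h3 : (1 : ℤ) ≤ p := by exact_mod_cast hp.one_lt.le
      nlinarith
    · simp only [c, if_neg hj, abs_zero]
      positivity
  set x := ∑ i ∈ Finset.range J, b i • y i with hx
  set z := ∑ i ∈ Finset.Ico (J + 1) M, c i • y i with hz
  have hzY : z ∈ Y (N (J + 1)) := Ico_mem hY hN hy hcR (J + 1) M
  have hlin : ((p : ℤ) ^ (β - v)) • lin y a =
      ((p : ℤ) ^ β) • (x + b J • y J) + ((p : ℤ) ^ (β + 1)) • z := by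
    have e1 : lin y a = (p : ℤ) ^ v • ∑ i ∈ Finset.range M, b i • y i := by
      rw [lin_eq_range y a hM, Finset.smul_sum]
      refine Finset.sum_congr rfl fun i _ => ?_
      rw [hb i, mul_smul]
    have e2 : ∑ i ∈ Finset.range M, b i • y i = x + b J • y J + (p : ℤ) • z := by
      rw [← Finset.sum_range_add_sum_Ico _ (show J + 1 ≤ M by omega), Finset.sum_range_succ]
      congr 1
      rw [hz, Finset.smul_sum]
      refine Finset.sum_congr rfl fun i hi => ?_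
      rw [Finset.mem_Ico] at hi
      rw [hc i (by omega), mul_smul]
    rw [e1, e2, smul_smul, ← pow_add, Nat.sub_add_cancel hvβ, smul_add, smul_smul, ← pow_succ]
  have hX : x ∈ X y (fun i => 2 ^ r i) J := by
    refine X_sum_mem y _ b J (fun i _ => ?_)
    exact_mod_cast hbR i
  refine hav J β hβJ hβ x hX (b J) hJ1.2 (hbR J) ?_
  obtain ⟨k, hk, w, hw, hkw⟩ := hmem
  refine ⟨(p : ℤ) ^ (β - v) • k + (p : ℤ) ^ (β - v) • w, ⟨_, K.zsmul_mem hk _, _,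
    hUW _ ?_ w hw, rfl⟩, _, ⟨-z, hY.neg _ _ hzY, rfl⟩, ?_⟩
  · rw [abs_of_nonneg (by positivity)]
    push_cast
    have : (1 : ℤ) ≤ p := by exact_mod_cast hp.one_lt.le
    exact pow_le_pow_right₀ this (Nat.sub_le _ _)
  · simp only at hkw ⊢
    rw [← smul_add, hkw, hlin, smul_neg]
    abel

omit [IsTopologicalAddGroup G] in
include hav hp hY in
theorem cond_iii (h0 : NP p Y 0) {i j : ℕ} (hij : i < j) : y j - y i ∉ W 0 := by
  intro hmem
  have h1 : -y i ∈ X y (fun i => 2 ^ r i) j := by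
    have := X_sum_mem y (fun i => 2 ^ r i) (fun l => if l = i then -1 else 0) j (by
      intro l _
      split_ifs
      · simp only [abs_neg, abs_one]
        push_cast
        exact one_le_pow₀ (by norm_num)
      · simp)
    have e : ∑ l ∈ Finset.range j, (if l = i then (-1 : ℤ) else 0) • y l = -y i := by
      rw [Finset.sum_eq_single i]
      · simp
      · intro l _ hl
        simp [hl]
      · intro h
        exact absurd (Finset.mem_range.2 hij) h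
    rw [← e]
    exact this
  refine hav j 0 (Nat.zero_le _) h0 _ h1 1 ?_ ?_ ?_
  · intro hd
    have := Int.le_of_dvd one_pos hd
    have := hp.one_lt
    omega
  · rw [abs_one]
    exact one_le_pow₀ (by norm_num)
  · refine ⟨y j - y i, ⟨0, K.zero_mem, _, hmem, zero_add _⟩, 0, ⟨0, hY.zero _, by simp⟩, ?_⟩
    simp only [pow_zero, one_smul, add_zero]
    abel

end Conseq

end Pool.Agent.Work.MP_417230_al
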