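import Pool.Agent.Work.MP_417230_al.Seq

set_option autoImplicit false

open Topology Filter Set

namespace Pool.Agent.Work.MP_417230_al

/-- the circle group -/
abbrev TT := UnitAddCircle

theorem exists_rep (δ : TT) : ∃ x : ℝ, (x : TT) = δ ∧ |x| = ‖δ‖ := by
  induction δ using QuotientAddGroup.induction_on with
  | H z =>
    refine ⟨z - round z, ?_, (UnitAddCircle.norm_eq).symm⟩
    change ((z - round z : ℝ) : AddCircle (1 : ℝ)) = (z : AddCircle (1 : ℝ))
    rw [AddCircle.coe_sub, sub_eq_self]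
    have : ((round z : ℝ) : AddCircle (1 : ℝ)) = ((round z • (1 : ℝ) : ℝ) : AddCircle (1 : ℝ)) := by
      simp
    rw [this, AddCircle.coe_zsmul, AddCircle.coe_period, smul_zero]

theorem norm_coe_small {x : ℝ} (hx : |x| ≤ 1 / 2) : ‖(x : TT)‖ = |x| := by
  have := (AddCircle.norm_coe_eq_abs_iff (p := (1 : ℝ)) (x := x) one_ne_zero).2 (by simpa using hx)
  exact this

theorem norm_two_smul {δ : TT} (h : ‖δ‖ ≤ 1 / 4) : ‖(2 : ℕ) • δ‖ = 2 * ‖δ‖ := by
  obtain ⟨x, hx, hxn⟩ := exists_rep δ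
  have h1 : (2 : ℕ) • δ = ((2 * x : ℝ) : TT) := by
    rw [← hx, two_nsmul, two_mul]
    rfl
  rw [h1, norm_coe_small, abs_mul, hxn]
  · norm_num
  · rw [abs_mul, hxn, abs_two]
    linarith

theorem exists_half_circle (δ : TT) : ∃ h : TT, (2 : ℕ) • h = δ ∧ ‖h‖ ≤ ‖δ‖ / 2 := by
  obtain ⟨x, hx, hxn⟩ := exists_rep δ
  refine ⟨((x / 2 : ℝ) : TT), ?_, ?_⟩
  · rw [← hx, two_nsmul]
    change ((x / 2 + x / 2 : ℝ) : TT) = _
    rw [add_halves]
  · rw [norm_coe_small, abs_div, abs_two, hxn]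
    rw [abs_div, abs_two, hxn]
    have : ‖δ‖ ≤ 1 / 2 := by
      have := AddCircle.norm_le_half_period (1 : ℝ) (x := δ) one_ne_zero
      simpa using this
    linarith

theorem norm_of_doubling {η : ℝ} (hη : η ≤ 1 / 4) (r : ℕ) : ∀ δ : TT,
    (∀ i ≤ r, ‖(2 ^ i : ℕ) • δ‖ ≤ η) → ‖δ‖ * 2 ^ r ≤ η := by
  induction r with
  | zero =>
    intro δ h
    simpa using h 0 le_rfl
  | succ r ih =>
    intro δ h
    have h1 := ih ((2 : ℕ) • δ) (fun i hi => by
      have := h (i + 1) (by omega)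
      rw [pow_succ, mul_smul] at this
      exact this)
    have h0 : ‖δ‖ ≤ 1 / 4 := by
      have := h 0 (by omega)
      simp only [pow_zero, one_smul] at this
      exact this.trans hη
    rw [norm_two_smul h0] at h1
    rw [pow_succ]
    linarith

theorem exists_approx {D : Type} [AddCommGroup D] (f : D → TT) {ε : ℝ} (r : ℕ) : ∀ a : D,
    (∀ i < r, ‖f ((2 ^ (i + 1) : ℕ) • a) - (2 : ℕ) • f ((2 ^ i : ℕ) • a)‖ ≤ ε) → 0 ≤ ε →
    ∃ t : TT, ∀ i ≤ r, ‖(2 ^ i : ℕ) • t - f ((2 ^ i : ℕ) • a)‖ ≤ ε := by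
  induction r with
  | zero =>
    intro a _ hε
    refine ⟨f a, fun i hi => ?_⟩
    obtain rfl : i = 0 := by omega
    simpa using hε
  | succ r ih =>
    intro a ha hε
    obtain ⟨t', ht'⟩ := ih ((2 : ℕ) • a) (fun i hi => by
      have := ha (i + 1) (by omega)
      rw [pow_succ (n := i + 1), pow_succ (n := i), mul_smul, mul_smul] at this
      rw [pow_succ (n := i), mul_smul]
      convert this using 3 <;> simp only [smul_smul] <;> ring_nf) hε
    obtain ⟨h, hh, hhn⟩ := exists_half_circle (t' - (2 : ℕ) • f a)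
    have h1 : ‖t' - (2 : ℕ) • f a‖ ≤ 2 * ε := by
      have e1 := ht' 0 (by omega)
      have e2 := ha 0 (by omega)
      simp only [pow_zero, one_smul, zero_add, pow_one] at e1 e2
      calc ‖t' - (2 : ℕ) • f a‖ = ‖(t' - f ((2 : ℕ) • a)) + (f ((2 : ℕ) • a) - (2 : ℕ) • f a)‖ := by
            congr 1; abel
        _ ≤ _ := norm_add_le _ _
        _ ≤ 2 * ε := by linarith
    refine ⟨f a + h, fun i hi => ?_⟩
    rcases Nat.eq_zero_or_pos i with h0 | h0
    · subst h0
      simp only [pow_zero, one_smul, add_sub_cancel_left]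
      linarith
    · obtain ⟨i, rfl⟩ : ∃ i', i = i' + 1 := ⟨i - 1, by omega⟩
      have h2 : (2 : ℕ) • (f a + h) = t' := by
        rw [smul_add, hh]; abel
      rw [pow_succ, mul_smul, mul_smul, h2]
      exact ht' i (by omega)

end Pool.Agent.Work.MP_417230_al
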