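import Pool.Agent.Work.MP_417230_al.Stab

set_option autoImplicit false

open Topology Filter Set

namespace Pool.Agent.Work.MP_417230_al

/-- big ranges -/
def bigR (i : ℕ) : ℤ := 2 ^ (3 * i + 4)

/-- small ranges -/
def smallR (i : ℕ) : ℤ := 2 ^ i

/-- approximants of `f` at `a` -/
def Appr (f : (ℕ →₀ ℤ) → TT) (ε : ℝ) (j : ℕ) (a : ℕ →₀ ℤ) (t : TT) : Prop :=
  ∀ i ≤ 2 * j + 4, ‖(2 ^ i : ℕ) • t - f ((2 ^ i : ℕ) • a)‖ ≤ ε

theorem Appr.mono {f : (ℕ →₀ ℤ) → TT} {ε : ℝ} {j j' : ℕ} (h : j ≤ j') {a : ℕ →₀ ℤ} {t : TT}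
    (ht : Appr f ε j' a t) : Appr f ε j a t :=
  fun i hi => ht i (by omega)

theorem smul_mem_box {j k i : ℕ} (hkj : k ≤ j) (hi : i ≤ 2 * j + 4) {a : ℕ →₀ ℤ}
    (ha : a ∈ Box smallR j) : (2 ^ i : ℕ) • a ∈ Box bigR k := by
  refine ⟨fun l hl => ?_, fun l => ?_⟩
  · rw [Finsupp.smul_apply, ha.1 l (by omega), smul_zero]
  · rw [Finsupp.smul_apply]
    rcases lt_or_ge l j with h | h
    · rw [ha.1 l h, smul_zero, abs_zero]
      simp only [bigR]
      positivity
    · have h1 := ha.2 l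
      simp only [smallR] at h1
      simp only [bigR, nsmul_eq_mul]
      rw [abs_mul]
      push_cast
      have h2 : |(2 : ℤ) ^ i| ≤ 2 ^ (2 * j + 4) := by
        rw [abs_of_nonneg (by positivity)]
        exact pow_le_pow_right₀ (by norm_num) hi
      calc |(2 : ℤ) ^ i| * |a l| ≤ 2 ^ (2 * j + 4) * 2 ^ l := by gcongr
        _ = 2 ^ (2 * j + 4 + l) := (pow_add _ _ _).symm
        _ ≤ 2 ^ (3 * l + 4) := pow_le_pow_right₀ (by norm_num) (by omega)

section

variable {f : (ℕ →₀ ℤ) → TT} {ε : ℝ} (hε0 : 0 ≤ ε) (hε : 4 * ε ≤ 1 / 4) {k : ℕ}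
  (hf : ∀ a ∈ Box bigR k, ∀ b ∈ Box bigR k, a + b ∈ Box bigR k →
    ‖f (a + b) - f a - f b‖ ≤ ε)

include hε0 hf in
theorem exists_appr {j : ℕ} (hkj : k ≤ j) {a : ℕ →₀ ℤ} (ha : a ∈ Box smallR j) :
    ∃ t, Appr f ε j a t := by
  refine exists_approx f (2 * j + 4) a ?_ hε0
  intro i hi
  have h1 := smul_mem_box hkj (i := i) (by omega) ha
  have h2 := smul_mem_box hkj (i := i + 1) (by omega) ha
  have h3 : (2 ^ (i + 1) : ℕ) • a = (2 ^ i : ℕ) • a + (2 ^ i : ℕ) • a := by
    rw [← add_smul]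
    congr 1
    ring
  rw [h3] at h2 ⊢
  have := hf _ h1 _ h1 h2
  rw [two_nsmul]
  rwa [sub_sub] at this

include hε hf in
theorem appr_add {j : ℕ} (hkj : k ≤ j) {a b : ℕ →₀ ℤ} (ha : a ∈ Box smallR j)
    (hb : b ∈ Box smallR j) (hab : a + b ∈ Box smallR j) {t t' t'' : TT} (ht : Appr f ε j a t)
    (ht' : Appr f ε j b t') (ht'' : Appr f ε j (a + b) t'') :
    ‖t'' - t - t'‖ * 2 ^ (2 * j + 4) ≤ 4 * ε := by
  refine norm_of_doubling hε _ _ ?_
  intro i hi
  have h1 := hf _ (smul_mem_box hkj hi ha) _ (smul_mem_box hkj hi hb)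
    (by rw [← smul_add]; exact smul_mem_box hkj hi hab)
  rw [← smul_add] at h1
  have e : (2 ^ i : ℕ) • (t'' - t - t') =
      (((2 ^ i : ℕ) • t'' - f ((2 ^ i : ℕ) • (a + b))) - ((2 ^ i : ℕ) • t - f ((2 ^ i : ℕ) • a)))
      - ((2 ^ i : ℕ) • t' - f ((2 ^ i : ℕ) • b)) +
      (f ((2 ^ i : ℕ) • (a + b)) - f ((2 ^ i : ℕ) • a) - f ((2 ^ i : ℕ) • b)) := by
    rw [smul_sub, smul_sub]
    abel
  rw [e]
  refine (norm_add_le _ _).trans ?_
  have h2 := norm_sub_le (((2 ^ i : ℕ) • t'' - f ((2 ^ i : ℕ) • (a + b))) -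
    ((2 ^ i : ℕ) • t - f ((2 ^ i : ℕ) • a))) ((2 ^ i : ℕ) • t' - f ((2 ^ i : ℕ) • b))
  have h3 := norm_sub_le ((2 ^ i : ℕ) • t'' - f ((2 ^ i : ℕ) • (a + b)))
    ((2 ^ i : ℕ) • t - f ((2 ^ i : ℕ) • a))
  have h4 := ht i hi
  have h5 := ht' i hi
  have h6 := ht'' i hi
  linarith

theorem single_mem {j : ℕ} {m : ℤ} (hm : |m| ≤ 2 ^ j) : Finsupp.single j m ∈ Box smallR j := by
  refine ⟨fun l hl => ?_, fun l => ?_⟩
  · rw [Finsupp.single_apply, if_neg (by omega)]
  · rw [Finsupp.single_apply]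
    split_ifs with h
    · subst h
      exact hm
    · simp only [smallR, abs_zero]
      positivity

include hε0 hε hf in
theorem appr_single {j : ℕ} (hkj : k ≤ j) {θ : TT} (hθ : Appr f ε j (Finsupp.single j 1) θ)
    (m : ℤ) : |m| ≤ 2 ^ j → ∀ u, Appr f ε j (Finsupp.single j m) u →
      ‖u - m • θ‖ * 2 ^ (2 * j + 4) ≤ (|m| + 1) * (4 * ε) := by
  have h1mem : Finsupp.single j (1 : ℤ) ∈ Box smallR j :=
    single_mem (by rw [abs_one]; exact one_le_pow₀ (by norm_num))
  induction m using Int.induction_on with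
  | zero =>
    intro _ u hu
    have h0 : (0 : ℕ →₀ ℤ) ∈ Box smallR j := by
      have := single_mem (j := j) (m := 0) (by simp)
      simpa using this
    rw [Finsupp.single_zero] at hu
    have := appr_add hε hf hkj h0 h0 (by simpa using h0) hu hu (by simpa using hu)
    simp only [zero_smul, sub_zero, abs_zero, Int.cast_zero, zero_add, one_mul]
    have e : u - u - u = -u := by abel
    rwa [e, norm_neg] at this
  | succ i ih =>
    intro hm u hu
    have hi : |(i : ℤ)| ≤ 2 ^ j := by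
      rw [abs_of_nonneg (by positivity)] at hm ⊢
      omega
    obtain ⟨v, hv⟩ := exists_appr hε0 hf hkj (single_mem hi)
    have h1 := ih hi v hv
    have h2 := appr_add hε hf hkj (single_mem hi) h1mem
      (by rw [← Finsupp.single_add]; exact single_mem hm) hv hθ
      (by rw [← Finsupp.single_add]; exact hu)
    have e : u - ((i : ℤ) + 1) • θ = (u - v - θ) + (v - (i : ℤ) • θ) := by
      rw [add_smul, one_smul]; abel
    rw [e]
    have h3 := norm_add_le (u - v - θ) (v - (i : ℤ) • θ)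
    have h4 : (0 : ℝ) < 2 ^ (2 * j + 4) := by positivity
    have h5 : ((|(i : ℤ) + 1| : ℤ) : ℝ) = (|(i : ℤ)| : ℤ) + 1 := by
      rw [abs_of_nonneg (by positivity), abs_of_nonneg (by positivity)]
      push_cast
      ring
    rw [h5]
    nlinarith
  | pred i ih =>
    intro hm u hu
    have hi : |(-(i : ℤ))| ≤ 2 ^ j := by
      rw [abs_neg, abs_of_nonneg (by positivity)]
      rw [abs_of_nonpos (by omega)] at hm
      omega
    obtain ⟨v, hv⟩ := exists_appr hε0 hf hkj (single_mem hi)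
    have h1 := ih hi v hv
    have hsum : Finsupp.single j (-(i : ℤ) - 1) + Finsupp.single j (1 : ℤ) =
        Finsupp.single j (-(i : ℤ)) := by
      rw [← Finsupp.single_add]
      congr 1
      ring
    have h2 := appr_add hε hf hkj (single_mem hm) h1mem
      (by rw [hsum]; exact single_mem hi) hu hθ
      (by rw [hsum]; exact hv)
    have e : u - (-(i : ℤ) - 1) • θ = -(v - u - θ) + (v - (-(i : ℤ)) • θ) := by
      rw [sub_smul, one_smul]; abel
    rw [e]
    have h3 := norm_add_le (-(v - u - θ)) (v - (-(i : ℤ)) • θ)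
    rw [norm_neg] at h3
    have h4 : (0 : ℝ) < 2 ^ (2 * j + 4) := by positivity
    have h5 : ((|-(i : ℤ) - 1| : ℤ) : ℝ) = (|-(i : ℤ)| : ℤ) + 1 := by
      rw [abs_of_nonpos (by omega), abs_of_nonpos (by omega)]
      push_cast
      ring
    rw [h5]
    nlinarith

include hε0 hε hf in
theorem stability_aux {θ : ℕ → TT}
    (hθ : ∀ j, k ≤ j → Appr f ε j (Finsupp.single j 1) (θ j)) : ∀ (d j : ℕ), k ≤ j →
    ∀ a ∈ Box smallR j, (∀ i, j + d ≤ i → a i = 0) → ∀ t, Appr f ε j a t →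
      ‖t - lin θ a‖ * 2 ^ j ≤ 2 * ε := by
  intro d
  induction d with
  | zero =>
    intro j hkj a ha had t ht
    have ha0 : a = 0 := by
      ext i
      rcases lt_or_ge i j with h | h
      · exact ha.1 i h
      · exact had i (by omega)
    subst ha0
    have := appr_add hε hf hkj ha ha (by simpa using ha) ht ht (by simpa using ht)
    have e : t - t - t = -t := by abel
    rw [e, norm_neg] at this
    rw [map_zero, sub_zero]
    have h1 : (2 : ℝ) ^ (2 * j + 4) = 2 ^ j * 2 ^ j * 16 := by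
      rw [pow_add, two_mul, pow_add]; norm_num
    have h2 : (1 : ℝ) ≤ 2 ^ j := one_le_pow₀ (by norm_num)
    rw [h1] at this
    have h3 : 0 ≤ ‖t‖ * 2 ^ j := by positivity
    nlinarith
  | succ d ih =>
    intro j hkj a ha had t ht
    set b := a.erase j with hb
    have hab : a = Finsupp.single j (a j) + b := (Finsupp.single_add_erase j a).symm
    have hbmem : b ∈ Box smallR (j + 1) := by
      refine ⟨fun i hi => ?_, fun i => ?_⟩
      · rw [hb, Finsupp.erase_apply]
        split_ifs with h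
        · rfl
        · exact ha.1 i (by omega)
      · rw [hb, Finsupp.erase_apply]
        split_ifs with h
        · simp only [abs_zero, smallR]; positivity
        · exact ha.2 i
    have hbmem' : b ∈ Box smallR j := ⟨fun i hi => hbmem.1 i (by omega), hbmem.2⟩
    have haj : |a j| ≤ 2 ^ j := ha.2 j
    obtain ⟨t', ht'⟩ := exists_appr hε0 hf (by omega : k ≤ j + 1) hbmem
    obtain ⟨u, hu⟩ := exists_appr hε0 hf hkj (single_mem haj)
    have h1 := ih (j + 1) (by omega) b hbmem (fun i hi => by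
      rw [hb, Finsupp.erase_apply]
      split_ifs with h
      · rfl
      · exact had i (by omega)) t' ht'
    have h2 := appr_add hε hf hkj (single_mem haj) hbmem' (by rw [← hab]; exact ha) hu
      (ht'.mono (by omega)) (by rw [← hab]; exact ht)
    have h3 := appr_single hε0 hε hf hkj (hθ j hkj) (a j) haj u hu
    have e : t - lin θ a = (t - u - t') + (u - a j • θ j) + (t' - lin θ b) := by
      conv_lhs => rw [hab]
      rw [map_add, Finsupp.linearCombination_single]
      abel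
    rw [e]
    have h4 := norm_add_le ((t - u - t') + (u - a j • θ j)) (t' - lin θ b)
    have h5 := norm_add_le (t - u - t') (u - a j • θ j)
    have h6 : (2 : ℝ) ^ (2 * j + 4) = 2 ^ j * 2 ^ j * 16 := by
      rw [pow_add, two_mul, pow_add]; norm_num
    have h7 : (1 : ℝ) ≤ 2 ^ j := one_le_pow₀ (by norm_num)
    have h8 : ((|a j| : ℤ) : ℝ) ≤ 2 ^ j := by exact_mod_cast haj
    rw [h6] at h2 h3
    rw [pow_succ] at h1
    set q : ℝ := 2 ^ j with hq
    set α := ‖t - u - t'‖
    set γ := ‖u - a j • θ j‖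
    set δ := ‖t' - lin θ b‖
    have hsum : (α + γ) * q * (q * 16) ≤ (q + 2) * (4 * ε) := by nlinarith
    have hsum' : (α + γ) * q ≤ ε := by
      by_contra hcon
      push Not at hcon
      have : (q + 2) * (4 * ε) ≤ ε * (q * 16) := by nlinarith
      nlinarith
    nlinarith

include hε0 hε hf in
/-- Ulam-type stability on boxes. -/
theorem stability : ∃ θ : ℕ → TT, ∀ a ∈ Box smallR k, ‖f a - lin θ a‖ ≤ 3 * ε := by
  have hex : ∀ j, ∃ θ, k ≤ j → Appr f ε j (Finsupp.single j 1) θ := by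
    intro j
    by_cases h : k ≤ j
    · obtain ⟨t, ht⟩ := exists_appr hε0 hf h
        (single_mem (j := j) (m := 1) (by rw [abs_one]; exact one_le_pow₀ (by norm_num)))
      exact ⟨t, fun _ => ht⟩
    · exact ⟨0, fun h' => absurd h' h⟩
  choose θ hθ using hex
  refine ⟨θ, fun a ha => ?_⟩
  obtain ⟨M, hM⟩ := exists_bound a
  obtain ⟨t, ht⟩ := exists_appr hε0 hf le_rfl ha
  have h1 := stability_aux hε0 hε hf hθ M k le_rfl a ha (fun i hi => hM i (by omega)) t ht
  have h2 := ht 0 (by omega)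
  simp only [pow_zero, one_smul] at h2
  have h3 : (1 : ℝ) ≤ 2 ^ k := one_le_pow₀ (by norm_num)
  have h4 : ‖t - lin θ a‖ ≤ 2 * ε := by
    have := norm_nonneg (t - lin θ a)
    nlinarith
  calc ‖f a - lin θ a‖ = ‖-(t - f a) + (t - lin θ a)‖ := by congr 1; abel
    _ ≤ ‖-(t - f a)‖ + ‖t - lin θ a‖ := norm_add_le _ _
    _ ≤ 3 * ε := by rw [norm_neg]; linarith

end

end Pool.Agent.Work.MP_417230_al
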