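import Pool.Agent.Work.MP_417230_al.Comp

set_option autoImplicit false

open Topology Filter Set
open scoped Pointwise

namespace Pool.Agent.Work.MP_417230_al

theorem exists_rec {α : Type} (a₀ : α) (P : ℕ → (ℕ → α) → α → Prop)
    (hcongr : ∀ j f g, (∀ i < j, f i = g i) → ∀ a, P j f a → P j g a)
    (hex : ∀ j f, ∃ a, P j f a) : ∃ f : ℕ → α, ∀ j, P j f (f j) := by
  classical
  let F : ∀ j : ℕ, (∀ i : ℕ, i < j → α) → α := fun j g =>
    Classical.choose (hex j (fun i => if h : i < j then g i h else a₀))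
  let f : ℕ → α := fun j => Nat.lt_wfRel.wf.fix F j
  refine ⟨f, fun j => ?_⟩
  have h1 : f j = F j (fun i _ => f i) := Nat.lt_wfRel.wf.fix_eq F j
  have h2 := Classical.choose_spec (hex j (fun i => if h : i < j then f i else a₀))
  have h3 : P j (fun i => if h : i < j then f i else a₀) (f j) := by
    rw [h1]
    exact h2
  refine hcongr j _ _ ?_ _ h3
  intro i hi
  simp [hi]

section Alg

variable {G : Type} [AddCommGroup G]

/-- the finite set of bounded combinations of `y 0, ..., y (j-1)` -/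
def X (y : ℕ → G) (R : ℕ → ℕ) : ℕ → Set G
  | 0 => {0}
  | j + 1 => {z | ∃ x ∈ X y R j, ∃ m : ℤ, |m| ≤ R j ∧ z = x + m • y j}

theorem X_finite (y : ℕ → G) (R : ℕ → ℕ) (j : ℕ) : (X y R j).Finite := by
  induction j with
  | zero => exact finite_singleton 0
  | succ j ih =>
    have h1 : ({m : ℤ | |m| ≤ R j}).Finite := by
      refine (Set.finite_Icc (-(R j : ℤ)) (R j)).subset ?_
      intro m hm
      exact abs_le.1 hm
    refine ((ih.prod h1).image (fun p : G × ℤ => p.1 + p.2 • y j)).subset ?_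
    rintro z ⟨x, hx, m, hm, rfl⟩
    exact ⟨(x, m), ⟨hx, hm⟩, rfl⟩

theorem X_congr {y y' : ℕ → G} (R : ℕ → ℕ) (j : ℕ) (h : ∀ i < j, y i = y' i) :
    X y R j = X y' R j := by
  induction j with
  | zero => rfl
  | succ j ih =>
    simp only [X]
    rw [ih (fun i hi => h i (by omega)), h j (by omega)]

theorem X_zero_mem (y : ℕ → G) (R : ℕ → ℕ) (j : ℕ) : (0 : G) ∈ X y R j := by
  induction j with
  | zero => rfl
  | succ j ih => exact ⟨0, ih, 0, by simp, by simp⟩

theorem X_sum_mem (y : ℕ → G) (R : ℕ → ℕ) (a : ℕ → ℤ) (j : ℕ) (h : ∀ i < j, |a i| ≤ R i) :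
    ∑ i ∈ Finset.range j, a i • y i ∈ X y R j := by
  induction j with
  | zero => simp [X]
  | succ j ih =>
    rw [Finset.sum_range_succ]
    exact ⟨_, ih (fun i hi => h i (by omega)), a j, h j (by omega), rfl⟩

theorem tail_mem {Y : ℕ → Set G} (h : Chain Y) {N : ℕ → ℕ} (hN : ∀ j, N j + 1 ≤ N (j + 1))
    {z : ℕ → G} (M : ℕ) : ∀ (d k : ℕ), M - k = d → (∀ j, k ≤ j → j < M → z j ∈ Y (N j + 1)) →
    ∑ j ∈ Finset.Ico k M, z j ∈ Y (N k) := by
  intro d
  induction d with
  | zero =>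
    intro k hk _
    rw [Finset.Ico_eq_empty (by omega)]
    simpa using h.zero _
  | succ d ih =>
    intro k hk hz
    rw [Finset.sum_eq_sum_Ico_succ_bot (by omega)]
    refine h.add _ _ _ (hz k le_rfl (by omega)) ?_
    exact h.mono (hN k) (ih (k + 1) (by omega) (fun j hj hj' => hz j (by omega) hj'))

/-- linear combinations -/
noncomputable abbrev lin (y : ℕ → G) : (ℕ →₀ ℤ) →ₗ[ℤ] G := Finsupp.linearCombination ℤ y

theorem lin_eq_range (y : ℕ → G) (a : ℕ →₀ ℤ) {M : ℕ} (hM : ∀ i, M ≤ i → a i = 0) :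
    lin y a = ∑ i ∈ Finset.range M, a i • y i := by
  rw [lin, Finsupp.linearCombination_apply]
  refine Finsupp.sum_of_support_subset _ ?_ _ (by simp)
  intro i hi
  rw [Finsupp.mem_support_iff] at hi
  rw [Finset.mem_range]
  by_contra hcon
  exact hi (hM i (by omega))

theorem exists_bound (a : ℕ →₀ ℤ) : ∃ M, ∀ i, M ≤ i → a i = 0 := by
  refine ⟨a.support.sup id + 1, fun i hi => ?_⟩
  by_contra hcon
  have := Finset.le_sup (f := id) (Finsupp.mem_support_iff.2 hcon)
  simp only [id] at this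
  omega

theorem lin_eq_Ico (y : ℕ → G) (a : ℕ →₀ ℤ) {k M : ℕ} (hk : ∀ i < k, a i = 0)
    (hM : ∀ i, M ≤ i → a i = 0) : lin y a = ∑ i ∈ Finset.Ico k M, a i • y i := by
  rw [lin_eq_range y a hM]
  refine (Finset.sum_subset ?_ ?_).symm
  · intro i hi
    rw [Finset.mem_Ico] at hi
    rw [Finset.mem_range]
    exact hi.2
  · intro i hi hi'
    rw [Finset.mem_range] at hi
    rw [Finset.mem_Ico] at hi'
    rw [hk i (by omega), zero_smul]

/-- the boxes of formal combinations -/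
def A (k : ℕ) : Set (ℕ →₀ ℤ) := {a | ∀ j, |a j| * 2 ^ k ≤ 2 ^ j}

theorem A_lt {k : ℕ} {a : ℕ →₀ ℤ} (ha : a ∈ A k) {i : ℕ} (hi : i < k) : a i = 0 := by
  by_contra hcon
  have h1 : (1 : ℤ) ≤ |a i| := Int.one_le_abs hcon
  have h2 := ha i
  have h3 : (2 : ℤ) ^ i < 2 ^ k := pow_lt_pow_right₀ (by norm_num) hi
  have h4 : (0 : ℤ) < 2 ^ k := by positivity
  nlinarith

theorem A_le {k : ℕ} {a : ℕ →₀ ℤ} (ha : a ∈ A k) (i : ℕ) : |a i| ≤ 2 ^ i := by
  have h2 := ha i
  have h4 : (1 : ℤ) ≤ 2 ^ k := one_le_pow₀ (by norm_num)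
  have h5 := abs_nonneg (a i)
  nlinarith

theorem A_zero (k : ℕ) : (0 : ℕ →₀ ℤ) ∈ A k := by
  intro j
  simp

theorem A_neg {k : ℕ} {a : ℕ →₀ ℤ} (ha : a ∈ A k) : -a ∈ A k := by
  intro j
  simpa using ha j

theorem A_add {k : ℕ} {a b : ℕ →₀ ℤ} (ha : a ∈ A (k + 1)) (hb : b ∈ A (k + 1)) :
    a + b ∈ A k := by
  intro j
  have h1 := ha j
  have h2 := hb j
  have h3 : |(a + b) j| ≤ |a j| + |b j| := by
    rw [Finsupp.add_apply]
    exact abs_add_le _ _
  have h4 : (0 : ℤ) < 2 ^ k := by positivity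
  rw [pow_succ] at h1 h2
  nlinarith

theorem A_mono {k l : ℕ} (h : k ≤ l) : A l ⊆ A k := by
  intro a ha j
  have h2 := ha j
  have h4 : (2 : ℤ) ^ k ≤ 2 ^ l := pow_le_pow_right₀ (by norm_num) h
  have h5 := abs_nonneg (a j)
  nlinarith

theorem A_single (k : ℕ) : Finsupp.single k (1 : ℤ) ∈ A k := by
  intro j
  rw [Finsupp.single_apply]
  split_ifs with h
  · subst h
    simp
  · simp

end Alg

section Top

variable {G : Type} [AddCommGroup G] [TopologicalSpace G] [IsTopologicalAddGroup G] [T2Space G]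

omit [IsTopologicalAddGroup G] in
theorem eq_zero_of_forall_mem {x : G} (h : ∀ W ∈ 𝓝 (0 : G), x ∈ W) : x = 0 := by
  by_contra hx
  have : ({x}ᶜ : Set G) ∈ 𝓝 (0 : G) := isOpen_compl_singleton.mem_nhds (fun h0 => hx (by
    rw [mem_singleton_iff] at h0; exact h0.symm))
  exact h _ this rfl

theorem step_one {V : Set G} (hLM : LocMin G V) {Y : ℕ → Set G} (hY : Chain Y)
    (hYn : ∀ n, Y n ∈ 𝓝 (0 : G)) (hYV : ∀ x ∈ Y 0, ∀ y ∈ Y 0, x + y ∈ V) {W : Set G}
    (hW : W ∈ 𝓝 (0 : G)) : ∃ m : ℤ, 1 ≤ m ∧ ∃ n, Cov ((fun x => m • x) '' Y n) W := by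
  classical
  by_contra hcon
  push Not at hcon
  obtain ⟨W1, hW1, hW1n, hW1a⟩ := exists_half hW
  obtain ⟨W2, hW2, hW2n, hW2a⟩ := exists_half hW1
  have hC : ∀ m : ℤ, m ≠ 0 → ∀ n, ¬ Cov ((fun x => m • x) '' Y n) (W1 - W1) := by
    have hpos : ∀ m : ℤ, 1 ≤ m → ∀ n, ¬ Cov ((fun x => m • x) '' Y n) (W1 - W1) := by
      intro m hm n h
      refine hcon m hm n (h.mono Subset.rfl ?_)
      rintro _ ⟨a, ha, b, hb, rfl⟩
      simp only [sub_eq_add_neg]
      exact hW1a a ha (-b) (hW1n b hb)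
    intro m hm n h
    rcases lt_or_gt_of_ne hm with h1 | h1
    · refine hpos (-m) (by omega) n (h.mono ?_ Subset.rfl)
      rintro _ ⟨x, hx, rfl⟩
      exact ⟨-x, hY.neg n x hx, by simp⟩
    · exact hpos m (by omega) n h
  let R : ℕ → ℕ := fun j => 2 ^ (j + 1)
  obtain ⟨y, hy⟩ := exists_rec (0 : G)
    (fun j (f : ℕ → G) (a : G) => a ∈ Y (2 * j + 1) ∧
      ∀ x ∈ X f R j, ∀ m : ℤ, m ≠ 0 → |m| ≤ R j → x + m • a ∉ W1)
    (by
      intro j f g hfg a ha
      rw [← X_congr R j hfg]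
      exact ha)
    (by
      intro j f
      have hfin := X_finite f R j
      obtain ⟨a, ha, ha'⟩ := exists_avoid hY (fun m : ℤ => m) (fun _ => W1)
        ((Finset.Icc (-(R j : ℤ)) (R j)).erase 0) (2 * j + 1)
        (fun _ => (fun x => -x) '' X f R j) (fun _ _ => hfin.image _)
        (by
          intro m hm n _ _
          exact hC m (Finset.ne_of_mem_erase hm) n)
      refine ⟨a, ha, ?_⟩
      intro x hx m hm hmR hmem
      refine ha' m (Finset.mem_erase.2 ⟨hm, Finset.mem_Icc.2 (abs_le.1 hmR)⟩) ?_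
      refine ⟨-x, ⟨x, hx, rfl⟩, x + m • a, hmem, ?_⟩
      simp only
      abel)
  have hsep : ∀ a : ℕ →₀ ℤ, (∀ j, |a j| ≤ R j) → a ≠ 0 → lin y a ∉ W1 := by
    intro a ha hne
    have hs : a.support.Nonempty := Finsupp.support_nonempty_iff.2 hne
    set J := a.support.max' hs with hJ
    have hJ1 : a J ≠ 0 := Finsupp.mem_support_iff.1 (a.support.max'_mem hs)
    have hJ2 : ∀ i, J + 1 ≤ i → a i = 0 := by
      intro i hi
      by_contra hc
      have := a.support.le_max' i (Finsupp.mem_support_iff.2 hc)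
      omega
    rw [lin_eq_range y a hJ2, Finset.sum_range_succ]
    exact (hy J).2 _ (X_sum_mem y R a J (fun i _ => ha i)) (a J) hJ1 (ha J)
  have hmemA : ∀ k, ∀ a ∈ A k, lin y a ∈ Y k := by
    intro k a ha
    obtain ⟨M, hM⟩ := exists_bound a
    rw [lin_eq_Ico y a (fun i hi => A_lt ha hi) hM]
    refine tail_mem hY (N := fun j => j) (fun j => le_rfl) M (M - k) k rfl ?_
    intro j _ _
    refine hY.zsmul (r := j) (A_le ha j) ?_
    have : j + 1 + j = 2 * j + 1 := by omega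
    rw [this]
    exact (hy j).1
  have hfinal := lm_tendsto hLM (fun k : ℕ => (lin y) '' A k)
    (by
      intro i j
      refine ⟨max i j, subset_inter ?_ ?_⟩
      · exact image_mono (A_mono (le_max_left i j))
      · exact image_mono (A_mono (le_max_right i j)))
    (by
      intro i
      exact ⟨0, A_zero i, map_zero _⟩)
    (by
      intro i
      refine ⟨i + 1, ?_⟩
      rintro _ ⟨_, ⟨a, ha, rfl⟩, _, ⟨b, hb, rfl⟩, rfl⟩
      exact ⟨a + b, A_add ha hb, map_add _ _ _⟩)
    (by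
      intro i
      refine ⟨i, ?_⟩
      intro x hx
      obtain ⟨a, ha, hax⟩ := hx
      exact ⟨-a, A_neg ha, by rw [map_neg, hax, neg_neg]⟩)
    (by
      refine ⟨0, Y 0, hYn 0, ?_⟩
      rintro _ ⟨w, hw, _, ⟨a, ha, rfl⟩, rfl⟩
      exact hYV w hw _ (hmemA 0 a ha))
    (by
      intro x hx
      apply eq_zero_of_forall_mem
      intro W' hW'
      obtain ⟨w, hw, _, ⟨a, ha, rfl⟩, hxa⟩ := hx (W' ∩ W2) (inter_mem hW' hW2) 0
      obtain ⟨M, hM⟩ := exists_bound a
      obtain ⟨w', hw', _, ⟨a', ha', rfl⟩, hxa'⟩ := hx (W' ∩ W2) (inter_mem hW' hW2) M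
      have h1 : lin y (a - a') = w' + -w := by
        rw [map_sub]
        have : w + lin y a = w' + lin y a' := hxa.trans hxa'.symm
        have h2 : lin y a = w' + lin y a' - w := by rw [← this]; abel
        rw [h2]; abel
      have h2 : lin y (a - a') ∈ W1 := by
        rw [h1]
        exact hW2a _ hw'.2 _ (hW2n _ hw.2)
      have h3 : a - a' = 0 := by
        by_contra hne
        refine hsep _ ?_ hne h2
        intro j
        have e1 := A_le ha j
        have e2 := A_le ha' j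
        have e3 : |(a - a') j| ≤ |a j| + |a' j| := by
          rw [Finsupp.sub_apply]
          exact abs_sub _ _
        refine e3.trans ?_
        simp only [R]
        push_cast
        rw [pow_succ]
        linarith
      have h4 : a = 0 := by
        ext i
        rcases lt_or_ge i M with hi | hi
        · have : a i = a' i := by
            have := DFunLike.congr_fun h3 i
            rw [Finsupp.sub_apply] at this
            simpa [sub_eq_zero] using this
          rw [this, A_lt ha' hi]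
          rfl
        · rw [hM i hi]
          rfl
      rw [h4, map_zero] at hxa
      simp only [add_zero] at hxa
      rw [← hxa]
      exact hw.1)
    W1 hW1
  obtain ⟨k, hk⟩ := hfinal
  have h1 : y k ∈ W1 := by
    have : lin y (Finsupp.single k 1) ∈ (lin y) '' A k := ⟨_, A_single k, rfl⟩
    have h2 := hk this
    simpa using h2
  refine (hy k).2 0 (X_zero_mem y R k) 1 one_ne_zero ?_ (by simpa using h1)
  simp only [R, abs_one]
  push_cast
  exact one_le_pow₀ (by norm_num)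

end Top

end Pool.Agent.Work.MP_417230_al
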